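import Pool.Agent.Y862.GM.Stm

/-!
Project GM (helper862), job LEVY: from characteristic functions to distribution functions.
-/

set_option autoImplicit false

namespace Pool.Agent.Y756.GM

open MeasureTheory ProbabilityTheory Filter Topology
open scoped ENNReal RealInnerProductSpace
open Pool.Agent.Y862.GM

/-- the empirical measure -/
noncomputable def emp {k : ℕ} (Om : Finset ℕ) (S : ℕ → Fin k → ℝ) :
    Measure (EuclideanSpace ℝ (Fin k)) :=
  ((Om.card : ℝ≥0∞)⁻¹) • ∑ x ∈ Om, Measure.dirac (WithLp.toLp 2 (S x))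

lemma emp_apply {k : ℕ} (Om : Finset ℕ) (S : ℕ → Fin k → ℝ) {A : Set (EuclideanSpace ℝ (Fin k))}
    [DecidablePred fun x => WithLp.toLp 2 (S x) ∈ A] (hA : MeasurableSet A) : emp Om S A =
      (Om.card : ℝ≥0∞)⁻¹ * ((Om.filter fun x => WithLp.toLp 2 (S x) ∈ A).card : ℝ≥0∞) := by
  unfold emp
  rw [Measure.smul_apply, Measure.finsetSum_apply, smul_eq_mul]
  congr 1
  rw [Finset.card_filter]
  push_cast
  refine Finset.sum_congr rfl fun x _ => ?_
  rw [Measure.dirac_apply' _ hA]
  by_cases h : WithLp.toLp 2 (S x) ∈ A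
  · rw [if_pos h, Set.indicator_of_mem h]
    rfl
  · rw [if_neg h, Set.indicator_of_notMem h]

lemma emp_prob {k : ℕ} {Om : Finset ℕ} (hOm : Om.Nonempty) (S : ℕ → Fin k → ℝ) :
    IsProbabilityMeasure (emp Om S) := by
  classical
  constructor
  rw [emp_apply Om S MeasurableSet.univ]
  simp only [Set.mem_univ, Finset.filter_true]
  apply ENNReal.inv_mul_cancel
  · simpa using hOm.ne_empty
  · simp

lemma emp_charFun {k : ℕ} (Om : Finset ℕ) (S : ℕ → Fin k → ℝ)
    (w : EuclideanSpace ℝ (Fin k)) : charFun (emp Om S) w =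
      (∑ x ∈ Om, Complex.exp (Complex.I * ((∑ i, w i * S x i : ℝ) : ℂ))) / Om.card := by
  rw [charFun_apply]
  unfold emp
  rw [integral_smul_measure, integral_finsetSum_measure (fun x _ => integrable_dirac (by simp))]
  rw [div_eq_inv_mul]
  have e : (((Om.card : ℝ≥0∞)⁻¹).toReal : ℝ) = ((Om.card : ℝ))⁻¹ := by
    rw [ENNReal.toReal_inv, ENNReal.toReal_natCast]
  rw [e, Complex.real_smul]
  push_cast
  congr 1
  refine Finset.sum_congr rfl fun x _ => ?_
  rw [integral_dirac, mul_comm]
  congr 2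
  rw [PiLp.inner_apply]
  push_cast
  refine Finset.sum_congr rfl fun i _ => ?_
  simp

theorem t_LEVY : S_LEVY := by
  classical
  intro k t ε hε
  by_contra hcon
  push Not at hcon
  choose Om hne S hw hlt using fun n : ℕ => hcon n (1 / ((n : ℝ) + 1)) (by positivity)
  obtain ⟨P, hP⟩ : ∃ P : ℕ → ProbabilityMeasure (EuclideanSpace ℝ (Fin k)), ∀ n, (P n : Measure (EuclideanSpace ℝ (Fin k))) = emp (Om n) (S n) :=
    ⟨fun n => ⟨emp (Om n) (S n), emp_prob (hne n) (S n)⟩, fun n => rfl⟩
  obtain ⟨γ, hγ⟩ : ∃ γ : ProbabilityMeasure (EuclideanSpace ℝ (Fin k)), (γ : Measure (EuclideanSpace ℝ (Fin k))) = stdGaussian (EuclideanSpace ℝ (Fin k)) :=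
    ⟨⟨stdGaussian (EuclideanSpace ℝ (Fin k)), inferInstance⟩, rfl⟩
  have hlim : Tendsto P atTop (𝓝 γ) := by
    apply ProbabilityMeasure.tendsto_of_tendsto_charFun
    intro w
    rw [hγ, charFun_stdGaussian]
    rw [tendsto_iff_norm_sub_tendsto_zero]
    refine squeeze_zero' (Eventually.of_forall fun n => norm_nonneg _) ?_
      tendsto_one_div_add_atTop_nhds_zero_nat
    obtain ⟨n0, hn0⟩ := exists_nat_ge (∑ i, |w i|)
    filter_upwards [eventually_ge_atTop n0] with n hn
    have h1 := hw n (fun i => w i) (fun i => by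
      have h2 : |w i| ≤ ∑ i, |w i| :=
        Finset.single_le_sum (f := fun i => |w i|) (fun i _ => abs_nonneg _) (Finset.mem_univ i)
      have h3 : (n0 : ℝ) ≤ n := by exact_mod_cast hn
      linarith)
    rw [hP, emp_charFun]
    have e : Complex.exp (-(‖w‖ : ℂ) ^ 2 / 2) =
        ((Real.exp (-(∑ i, w i ^ 2) / 2) : ℝ) : ℂ) := by
      rw [← EuclideanSpace.real_norm_sq_eq]
      push_cast
      rfl
    rw [e]
    exact h1
  set A : Set (EuclideanSpace ℝ (Fin k)) := {z | ∀ i, z i ≤ t i} with hA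
  have hcl : IsClosed A := by
    rw [hA, Set.ofPred_forall]
    exact isClosed_iInter fun i => isClosed_le (by fun_prop) continuous_const
  have hmeas : Measurable (WithLp.toLp 2 : (Fin k → ℝ) → EuclideanSpace ℝ (Fin k)) := by fun_prop
  have hfr : (γ : Measure (EuclideanSpace ℝ (Fin k))) (frontier A) = 0 := by
    have hsub : frontier A ⊆ ⋃ i, {z : EuclideanSpace ℝ (Fin k) | z i = t i} := by
      intro z hz
      rw [hcl.frontier_eq] at hz
      by_contra hcon2
      rw [Set.mem_iUnion] at hcon2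
      push Not at hcon2
      apply hz.2
      rw [mem_interior]
      refine ⟨{z | ∀ i, z i < t i}, fun y hy i => (hy i).le, ?_, fun i => lt_of_le_of_ne (hz.1 i)
        (hcon2 i)⟩
      rw [Set.ofPred_forall]
      exact isOpen_iInter_of_finite fun i => isOpen_lt (by fun_prop) continuous_const
    refine measure_mono_null hsub ?_
    rw [measure_iUnion_null_iff]
    intro i
    rw [hγ, ← map_pi_eq_stdGaussian, Measure.map_apply hmeas
      ((isClosed_eq (by fun_prop) continuous_const).measurableSet)]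
    have : NullSingletonClass (gaussianReal 0 1) := nullSingletonClass_gaussianReal one_ne_zero
    exact Measure.pi_hyperplane (fun _ : Fin k => gaussianReal 0 1) i (t i)
  have hconv := ProbabilityMeasure.tendsto_measure_of_null_frontier_of_tendsto' hlim hfr
  have hγA : ((γ : Measure (EuclideanSpace ℝ (Fin k))) A).toReal =
      ∏ i, (gaussianReal 0 1).real (Set.Iic (t i)) := by
    rw [hγ, ← map_pi_eq_stdGaussian, Measure.map_apply hmeas hcl.measurableSet]
    have e : (WithLp.toLp 2 : (Fin k → ℝ) → EuclideanSpace ℝ (Fin k)) ⁻¹' A =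
        Set.univ.pi (fun i => Set.Iic (t i)) := by
      ext x
      rw [Set.mem_preimage, hA, Set.mem_univ_pi]
      exact Iff.rfl
    rw [e, Measure.pi_pi, ENNReal.toReal_prod]
    rfl
  have hconv2 : Tendsto (fun n => ((P n : Measure (EuclideanSpace ℝ (Fin k))) A).toReal) atTop
      (𝓝 (((γ : Measure (EuclideanSpace ℝ (Fin k))) A).toReal)) :=
    (ENNReal.tendsto_toReal (measure_ne_top _ _)).comp hconv
  have hPn : ∀ n, ((P n : Measure (EuclideanSpace ℝ (Fin k))) A).toReal =
      (((Om n).filter (fun x => ∀ i, S n x i ≤ t i)).card : ℝ) / (Om n).card := by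
    intro n
    rw [hP, emp_apply _ _ hcl.measurableSet, ENNReal.toReal_mul, ENNReal.toReal_inv,
      ENNReal.toReal_natCast, ENNReal.toReal_natCast, div_eq_inv_mul]
    congr 3
  simp_rw [hPn] at hconv2
  rw [hγA] at hconv2
  have h1 := (tendsto_iff_norm_sub_tendsto_zero.1 hconv2).eventually (gt_mem_nhds hε)
  obtain ⟨n, hn⟩ := h1.exists
  rw [Real.norm_eq_abs] at hn
  exact absurd (hlt n) (not_lt.2 hn.le)

end Pool.Agent.Y756.GM
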